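import Pool.Agent.Y830.HM.Final

/-!
# Hyperbolic 6-manifolds with infinite first homology: every Euler characteristic

There is a hyperbolic 6-manifold `M₁ = H⁶/Γ₁` of minimal volume `8π³/15` (Euler characteristic
`-1`) with infinite first homology; every finite covering `M` of it has infinite first homology
and has, for every `l ≥ 1`, an `l`-sheeted covering with infinite first homology. In particular
every negative integer is the Euler characteristic of a hyperbolic 6-manifold with infinite first
homology. Every even negative integer is the Euler characteristic of an orientable covering of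
`M₁` with infinite first homology.
-/

namespace Pool.Agent.Results.MP_3fe7bf_gt.EveryCovering

open Pool.Agent.W575.Hyp6 Pool.Agent.Y830.HM

theorem result : ∃ Γ₁ : Subgroup PosLor, IsManifoldGroup Γ₁ 1 ∧
    (∀ Γ : Subgroup PosLor, Γ ≤ Γ₁ → Γ.index ≠ 0 → ∃ k : ℕ, 1 ≤ k ∧ IsManifoldGroup Γ k ∧
      ∀ l : ℕ, 1 ≤ l → ∃ Γ' : Subgroup PosLor, Γ' ≤ Γ ∧ IsManifoldGroup Γ' (k * l)) ∧
    (∀ k : ℕ, 1 ≤ k → ∃ Γ : Subgroup PosLor, Γ ≤ Γ₁ ∧ IsManifoldGroup Γ (2 * k) ∧
      PreservesOrientation Γ) :=
  main

end Pool.Agent.Results.MP_3fe7bf_gt.EveryCovering
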